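import Pool.Agent.H25.ZSup

set_option autoImplicit false

namespace Pool.Agent.Results.MP_4ba7b3_gt.No

open Pool.Agent.H25.ZTop

theorem result : ∃ b : ℕ → ℕ, IsD b ∧ ∃ χ ∈ Ch (sb b), χ ∉ Hb b := by
  have h1 : sb (sq C1) ≤ tau (sq C1) :=
    iInf_le (fun c : {c // IsDinf c ∧ lam c = lam (sq C1)} => tau c.1) ⟨sq C1, d1, rfl⟩
  have h2 : sb (sq C1) ≤ tau (sq C2) :=
    iInf_le (fun c : {c // IsDinf c ∧ lam c = lam (sq C1)} => tau c.1) ⟨sq C2, d2, lam12⟩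
  refine ⟨sq C1, d1.1, _, continuous_le_dom (le_inf h1 h2) zz_ch, fun ⟨k, n, h⟩ => zz_not k n ?_⟩
  rw [← h, zmultiplesHom_apply, one_smul]

end Pool.Agent.Results.MP_4ba7b3_gt.No
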